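import Pool.Agent.H451_SparseStack.Defs

set_option autoImplicit false

/-!
# Good rows and their number under a change of one row
-/

namespace Pool.Agent.H451_SparseStack

open Finset

/-- The rows of `S` other than `u` that share the position of row `u` in block `j`. -/
def mates {n ζ b : ℕ} (S : Finset (Fin n)) (s : Fin n → Fin ζ → Fin b) (u : Fin n) (j : Fin ζ) :
    Finset (Fin n) :=
  S.filter fun w => w ≠ u ∧ s w j = s u j

/-- The set of rows of `S` having at least `K` mates in each block. -/
def goodRows {n ζ b : ℕ} (S : Finset (Fin n)) (K : ℕ) (s : Fin n → Fin ζ → Fin b) :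
    Finset (Fin n) :=
  S.filter fun u => ∀ j, K ≤ (mates S s u j).card

/-- Changing the row `v` can remove at most `ζ * K + 1` good rows. -/
theorem card_sdiff_goodRows_le {n ζ b : ℕ} (S : Finset (Fin n)) (K : ℕ)
    (s : Fin n → Fin ζ → Fin b) (v : Fin n) (t : Fin ζ → Fin b) :
    (goodRows S K s \ goodRows S K (Function.update s v t)).card ≤ ζ * K + 1 := by
  classical
  set s' := Function.update s v t with hs'
  -- the exceptional sets
  let B : Fin ζ → Finset (Fin n) := fun j => S.filter fun w => w ≠ v ∧ s w j = s v j
  let T : Fin ζ → Finset (Fin n) := fun j => if (B j).card ≤ K then B j else ∅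
  have hT : ∀ j, (T j).card ≤ K := by
    intro j
    by_cases h : (B j).card ≤ K
    · simp only [T, if_pos h]; exact h
    · simp only [T, if_neg h]; simp
  have hsub : goodRows S K s \ goodRows S K s' ⊆ insert v (Finset.univ.biUnion T) := by
    intro u hu
    rw [Finset.mem_sdiff] at hu
    obtain ⟨hu1, hu2⟩ := hu
    rw [goodRows, Finset.mem_filter] at hu1 hu2
    obtain ⟨huS, hu1⟩ := hu1
    by_cases huv : u = v
    · rw [huv]; exact Finset.mem_insert_self _ _
    have hu3 : ∃ j, (mates S s' u j).card < K := by
      by_contra hcon
      push Not at hcon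
      exact hu2 ⟨huS, hcon⟩
    obtain ⟨j, hj⟩ := hu3
    have hsu : s' u = s u := by rw [hs', Function.update_of_ne huv]
    have hsub1 : (mates S s u j).erase v ⊆ mates S s' u j := by
      intro w hw
      rw [Finset.mem_erase] at hw
      obtain ⟨hwv, hw⟩ := hw
      rw [mates, Finset.mem_filter] at hw ⊢
      refine ⟨hw.1, hw.2.1, ?_⟩
      rw [hsu, hs', Function.update_of_ne hwv]
      exact hw.2.2
    have hv : v ∈ mates S s u j := by
      by_contra hcon
      rw [Finset.erase_eq_of_notMem hcon] at hsub1
      have := Finset.card_le_card hsub1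
      have := hu1 j
      omega
    have hcard1 : (mates S s u j).card ≤ K := by
      have h1 := Finset.card_le_card hsub1
      rw [Finset.card_erase_of_mem hv] at h1
      omega
    have hv' := hv
    rw [mates, Finset.mem_filter] at hv'
    have hsv : s v j = s u j := hv'.2.2
    have hBcard : (B j).card ≤ K := by
      have hins : insert v (B j) = insert u (mates S s u j) := by
        ext w
        simp only [B, mates, Finset.mem_insert, Finset.mem_filter]
        constructor
        · rintro (rfl | ⟨h1, h2, h3⟩)
          · right; exact ⟨hv'.1, hv'.2.1, hsv⟩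
          · by_cases hwu : w = u
            · left; exact hwu
            · right; exact ⟨h1, hwu, by rw [h3, hsv]⟩
        · rintro (rfl | ⟨h1, h2, h3⟩)
          · right; exact ⟨huS, huv, hsv.symm⟩
          · by_cases hwv : w = v
            · left; exact hwv
            · right; exact ⟨h1, hwv, by rw [h3, hsv]⟩
      have h1 : v ∉ B j := by simp [B]
      have h2 : u ∉ mates S s u j := by simp [mates]
      have h3 := congrArg Finset.card hins
      rw [Finset.card_insert_of_notMem h1, Finset.card_insert_of_notMem h2] at h3
      omega
    rw [Finset.mem_insert]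
    right
    rw [Finset.mem_biUnion]
    refine ⟨j, Finset.mem_univ _, ?_⟩
    simp only [T, if_pos hBcard, B, Finset.mem_filter]
    exact ⟨huS, huv, hsv.symm⟩
  refine le_trans (Finset.card_le_card hsub) ?_
  refine le_trans (Finset.card_insert_le _ _) ?_
  have : (Finset.univ.biUnion T).card ≤ ζ * K := by
    refine le_trans Finset.card_biUnion_le ?_
    refine le_trans (Finset.sum_le_sum (fun j _ => hT j)) ?_
    simp
  omega

/-- The number of good rows changes by at most `ζ * K + 1` when one row is changed. -/
theorem abs_card_goodRows_sub_le {n ζ b : ℕ} (S : Finset (Fin n)) (K : ℕ)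
    (s : Fin n → Fin ζ → Fin b) (v : Fin n) (t : Fin ζ → Fin b) :
    |((goodRows S K (Function.update s v t)).card : ℝ) - ((goodRows S K s).card : ℝ)|
      ≤ (ζ : ℝ) * K + 1 := by
  classical
  set s' := Function.update s v t with hs'
  have h1 : (goodRows S K s \ goodRows S K s').card ≤ ζ * K + 1 :=
    card_sdiff_goodRows_le S K s v t
  have h2 : (goodRows S K s' \ goodRows S K s).card ≤ ζ * K + 1 := by
    have h := card_sdiff_goodRows_le S K s' v (s v)
    have h' : Function.update s' v (s v) = s := by
      rw [hs', Function.update_idem, Function.update_eq_self]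
    rwa [h'] at h
  have h3 : (goodRows S K s).card ≤ (goodRows S K s').card + (ζ * K + 1) := by
    have := Finset.card_le_card_sdiff_add_card (s := goodRows S K s) (t := goodRows S K s')
    omega
  have h4 : (goodRows S K s').card ≤ (goodRows S K s).card + (ζ * K + 1) := by
    have := Finset.card_le_card_sdiff_add_card (s := goodRows S K s') (t := goodRows S K s)
    omega
  have h3' : ((goodRows S K s).card : ℝ) ≤ (goodRows S K s').card + (ζ * K + 1) := by
    exact_mod_cast h3
  have h4' : ((goodRows S K s').card : ℝ) ≤ (goodRows S K s).card + (ζ * K + 1) := by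
    exact_mod_cast h4
  rw [abs_le]
  constructor <;> linarith

/-- Changing a row outside `S` does not change the number of good rows. -/
theorem goodRows_update_of_notMem {n ζ b : ℕ} (S : Finset (Fin n)) (K : ℕ)
    (s : Fin n → Fin ζ → Fin b) (v : Fin n) (hv : v ∉ S) (t : Fin ζ → Fin b) :
    goodRows S K (Function.update s v t) = goodRows S K s := by
  classical
  have hm : ∀ u ∈ S, ∀ j, mates S (Function.update s v t) u j = mates S s u j := by
    intro u hu j
    have huv : u ≠ v := fun h => hv (h ▸ hu)
    ext w
    simp only [mates, Finset.mem_filter]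
    constructor
    · rintro ⟨h1, h2, h3⟩
      have hwv : w ≠ v := fun h => hv (h ▸ h1)
      rw [Function.update_of_ne hwv, Function.update_of_ne huv] at h3
      exact ⟨h1, h2, h3⟩
    · rintro ⟨h1, h2, h3⟩
      have hwv : w ≠ v := fun h => hv (h ▸ h1)
      refine ⟨h1, h2, ?_⟩
      rw [Function.update_of_ne hwv, Function.update_of_ne huv]
      exact h3
  ext u
  simp only [goodRows, Finset.mem_filter]
  constructor
  · rintro ⟨h1, h2⟩
    exact ⟨h1, fun j => by rw [← hm u h1 j]; exact h2 j⟩
  · rintro ⟨h1, h2⟩
    exact ⟨h1, fun j => by rw [hm u h1 j]; exact h2 j⟩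

end Pool.Agent.H451_SparseStack
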