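import Mathlib

set_option autoImplicit false

/-!
# An Efron-Stein type variance bound on finite product spaces
-/

namespace Pool.Agent.H451_SparseStack

open Finset

/-- Variance bound: if changing coordinate `i` changes `f` by at most `c i`, then the sum of squares
of deviations from the average is at most `∑ c i ^ 2` times the number of points. -/
theorem efron_stein {A : Type} [Fintype A] [Nonempty A] :
    ∀ (n : ℕ) (f : (Fin n → A) → ℝ) (c : Fin n → ℝ),
      (∀ x i a, |f (Function.update x i a) - f x| ≤ c i) →
      ∑ x, (f x - (∑ y, f y) / (Fintype.card (Fin n → A) : ℝ)) ^ 2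
        ≤ (∑ i, c i ^ 2) * (Fintype.card (Fin n → A) : ℝ) := by
  classical
  intro n
  induction n with
  | zero =>
    intro f c _
    simp
  | succ n ih =>
    intro f c hf
    have hApos : (0 : ℝ) < (Fintype.card A : ℝ) := by
      exact_mod_cast Fintype.card_pos
    have hcard : (Fintype.card (Fin (n + 1) → A) : ℝ)
        = (Fintype.card A : ℝ) * (Fintype.card (Fin n → A) : ℝ) := by
      simp [pow_succ, mul_comm]
    have hNpos : (0 : ℝ) < (Fintype.card (Fin n → A) : ℝ) := by
      exact_mod_cast Fintype.card_pos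
    -- splitting of sums
    have hsplit : ∀ g : (Fin (n + 1) → A) → ℝ,
        ∑ x, g x = ∑ y : Fin n → A, ∑ a : A, g (Fin.cons a y) := by
      intro g
      rw [← (Fin.consEquiv (fun _ : Fin (n + 1) => A)).sum_comp, Fintype.sum_prod_type,
        Finset.sum_comm]
      rfl
    set g : (Fin n → A) → ℝ := fun y => (∑ a : A, f (Fin.cons a y)) / (Fintype.card A : ℝ) with hg
    have hg' : ∀ y, ∑ a : A, f (Fin.cons a y) = (Fintype.card A : ℝ) * g y := by
      intro y
      rw [hg]; field_simp
    set μ : ℝ := (∑ y, f y) / (Fintype.card (Fin (n + 1) → A) : ℝ) with hμ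
    have hμ' : μ = (∑ y, g y) / (Fintype.card (Fin n → A) : ℝ) := by
      rw [hμ, hsplit f, hcard, Finset.sum_congr rfl (fun y _ => hg' y), ← Finset.mul_sum]
      field_simp
    have hc0 : 0 ≤ c 0 := by
      obtain ⟨a⟩ := (inferInstance : Nonempty A)
      exact le_trans (abs_nonneg _) (hf (fun _ => a) 0 a)
    -- fibre bound
    have hfib : ∀ (y : Fin n → A) (a : A), |f (Fin.cons a y) - g y| ≤ c 0 := by
      intro y a
      have h1 : f (Fin.cons a y) - g y
          = (∑ a' : A, (f (Fin.cons a y) - f (Fin.cons a' y))) / (Fintype.card A : ℝ) := by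
        rw [Finset.sum_sub_distrib, hg' y]
        simp only [Finset.sum_const, Finset.card_univ, nsmul_eq_mul]
        field_simp
      rw [h1, abs_div, abs_of_pos hApos, div_le_iff₀ hApos]
      refine le_trans (Finset.abs_sum_le_sum_abs _ _) ?_
      have h2 : ∀ a' ∈ (Finset.univ : Finset A),
          |f (Fin.cons a y) - f (Fin.cons a' y)| ≤ c 0 := by
        intro a' _
        have := hf (Fin.cons a' y) 0 a
        rwa [Fin.update_cons_zero] at this
      refine le_trans (Finset.sum_le_sum h2) ?_
      simp [mul_comm]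
    have hgd : ∀ (y : Fin n → A) (i : Fin n) (a : A),
        |g (Function.update y i a) - g y| ≤ c i.succ := by
      intro y i a
      have h1 : g (Function.update y i a) - g y
          = (∑ a' : A, (f (Fin.cons a' (Function.update y i a)) - f (Fin.cons a' y)))
            / (Fintype.card A : ℝ) := by
        rw [Finset.sum_sub_distrib, hg' y, hg' (Function.update y i a)]
        field_simp
      rw [h1, abs_div, abs_of_pos hApos, div_le_iff₀ hApos]
      refine le_trans (Finset.abs_sum_le_sum_abs _ _) ?_
      have h2 : ∀ a' ∈ (Finset.univ : Finset A),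
          |f (Fin.cons a' (Function.update y i a)) - f (Fin.cons a' y)| ≤ c i.succ := by
        intro a' _
        have := hf (Fin.cons a' y) i.succ a
        rwa [← Fin.cons_update] at this
      refine le_trans (Finset.sum_le_sum h2) ?_
      simp [mul_comm]
    have ih' := ih g (fun i => c i.succ) hgd
    rw [← hμ'] at ih'
    -- decomposition
    have hdec : ∀ y : Fin n → A, ∑ a : A, (f (Fin.cons a y) - μ) ^ 2
        = ∑ a : A, (f (Fin.cons a y) - g y) ^ 2 + (Fintype.card A : ℝ) * (g y - μ) ^ 2 := by
      intro y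
      have e1 : ∀ a : A, (f (Fin.cons a y) - μ) ^ 2 = (f (Fin.cons a y) - g y) ^ 2
          + 2 * (g y - μ) * (f (Fin.cons a y) - g y) + (g y - μ) ^ 2 := by
        intro a; ring
      rw [Finset.sum_congr rfl (fun a _ => e1 a), Finset.sum_add_distrib, Finset.sum_add_distrib,
        ← Finset.mul_sum, Finset.sum_sub_distrib, hg' y]
      simp only [Finset.sum_const, Finset.card_univ, nsmul_eq_mul]
      ring
    rw [hsplit]
    have hstep : ∀ y ∈ (Finset.univ : Finset (Fin n → A)),
        ∑ a : A, (f (Fin.cons a y) - μ) ^ 2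
          ≤ (Fintype.card A : ℝ) * c 0 ^ 2 + (Fintype.card A : ℝ) * (g y - μ) ^ 2 := by
      intro y _
      rw [hdec y]
      have : ∑ a : A, (f (Fin.cons a y) - g y) ^ 2 ≤ (Fintype.card A : ℝ) * c 0 ^ 2 := by
        have h3 : ∀ a ∈ (Finset.univ : Finset A), (f (Fin.cons a y) - g y) ^ 2 ≤ c 0 ^ 2 := by
          intro a _
          exact sq_le_sq' (by have := (abs_le.mp (hfib y a)).1; linarith)
            (abs_le.mp (hfib y a)).2
        refine le_trans (Finset.sum_le_sum h3) ?_
        simp
      linarith
    refine le_trans (Finset.sum_le_sum hstep) ?_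
    rw [Finset.sum_add_distrib, ← Finset.mul_sum, ← Finset.mul_sum, Fin.sum_univ_succ, hcard]
    simp only [Finset.sum_const, Finset.card_univ, nsmul_eq_mul]
    have h5 := mul_le_mul_of_nonneg_left ih' hApos.le
    calc (Fintype.card A : ℝ) * ((Fintype.card (Fin n → A) : ℝ) * c 0 ^ 2)
          + (Fintype.card A : ℝ) * ∑ x, (g x - μ) ^ 2
        ≤ (Fintype.card A : ℝ) * ((Fintype.card (Fin n → A) : ℝ) * c 0 ^ 2)
          + (Fintype.card A : ℝ) * ((∑ i : Fin n, c i.succ ^ 2)
            * (Fintype.card (Fin n → A) : ℝ)) := by linarith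
      _ = _ := by ring

end Pool.Agent.H451_SparseStack
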