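import Pool.Agent.H451_SparseStack.Expectation
import Pool.Agent.H451_SparseStack.EfronStein

set_option autoImplicit false

/-!
# With high probability there is a good row
-/

namespace Pool.Agent.H451_SparseStack

open Finset

theorem prob_no_good {n ζ b K m : ℕ} (hb : 1 ≤ b) (hm1 : 1 ≤ m) (S : Finset (Fin n))
    (hm : K * m + 1 ≤ S.card) :
    prob (fun s : Fin n → Fin ζ → Fin b => goodRows S K s = ∅)
      ≤ ((ζ : ℝ) * K + 1) ^ 2
        / ((S.card : ℝ) * (((m : ℝ) / ((b : ℝ) + m)) ^ (K * ζ)) ^ 2) := by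
  classical
  have : Nonempty (Fin b) := ⟨⟨0, hb⟩⟩
  have hMpos : (0 : ℝ) < (Fintype.card (Fin n → Fin ζ → Fin b) : ℝ) := by
    exact_mod_cast Fintype.card_pos
  have hSpos : (0 : ℝ) < (S.card : ℝ) := by
    have : 0 < S.card := by omega
    exact_mod_cast this
  have hb0 : (0 : ℝ) < (b : ℝ) := by exact_mod_cast hb
  have hm0 : (0 : ℝ) < (m : ℝ) := by exact_mod_cast hm1
  set M : ℝ := (Fintype.card (Fin n → Fin ζ → Fin b) : ℝ) with hM
  set ρ : ℝ := ((m : ℝ) / ((b : ℝ) + m)) ^ (K * ζ) with hρ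
  have hρ0 : 0 < ρ := by rw [hρ]; positivity
  set f : (Fin n → Fin ζ → Fin b) → ℝ := fun s => ((goodRows S K s).card : ℝ) with hf
  set c : Fin n → ℝ := fun i => if i ∈ S then (ζ : ℝ) * K + 1 else 0 with hc
  have hbd : ∀ x i a, |f (Function.update x i a) - f x| ≤ c i := by
    intro x i a
    by_cases hi : i ∈ S
    · simp only [hc, hf, if_pos hi]
      exact abs_card_goodRows_sub_le S K x i a
    · simp only [hc, hf, if_neg hi]
      rw [goodRows_update_of_notMem S K x i hi a]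
      simp
  have hES := efron_stein n f c hbd
  set μ : ℝ := (∑ y, f y) / M with hμ
  have hcsum : ∑ i, c i ^ 2 = (S.card : ℝ) * ((ζ : ℝ) * K + 1) ^ 2 := by
    simp only [hc]
    have : ∀ i : Fin n, (if i ∈ S then (ζ : ℝ) * K + 1 else 0) ^ 2
        = if i ∈ S then ((ζ : ℝ) * K + 1) ^ 2 else 0 := by
      intro i; split_ifs <;> simp
    rw [Finset.sum_congr rfl (fun i _ => this i), Finset.sum_ite_mem, Finset.univ_inter,
      Finset.sum_const, nsmul_eq_mul]
  rw [hcsum] at hES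
  have hμge : (S.card : ℝ) * ρ ≤ μ := by
    rw [hμ, le_div_iff₀ hMpos]
    exact sum_card_goodRows_ge hb S hm
  have hSρ : 0 < (S.card : ℝ) * ρ := by positivity
  have hsum : ((Finset.univ.filter fun s : Fin n → Fin ζ → Fin b => goodRows S K s = ∅).card : ℝ)
      * μ ^ 2 ≤ ∑ x, (f x - μ) ^ 2 := by
    rw [← nsmul_eq_mul, ← Finset.sum_const]
    refine le_trans (Finset.sum_le_sum (g := fun x => (f x - μ) ^ 2) ?_)
      (Finset.sum_le_sum_of_subset_of_nonneg (Finset.filter_subset _ _)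
        (fun x _ _ => sq_nonneg _))
    intro x hx
    rw [Finset.mem_filter] at hx
    simp only [hf, hx.2]
    simp
  have h1 : ((Finset.univ.filter fun s : Fin n → Fin ζ → Fin b => goodRows S K s = ∅).card : ℝ)
      * ((S.card : ℝ) * ρ) ^ 2 ≤ (S.card : ℝ) * ((ζ : ℝ) * K + 1) ^ 2 * M := by
    refine le_trans ?_ (le_trans hsum hES)
    gcongr
  rw [prob_eq, div_le_div_iff₀ hMpos (by positivity)]
  have h2 : ((Finset.univ.filter fun s : Fin n → Fin ζ → Fin b => goodRows S K s = ∅).card : ℝ)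
      * ((S.card : ℝ) * ρ ^ 2) * (S.card : ℝ)
      ≤ (((ζ : ℝ) * K + 1) ^ 2 * M) * (S.card : ℝ) := by
    nlinarith [h1]
  exact le_of_mul_le_mul_right h2 hSpos

end Pool.Agent.H451_SparseStack
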