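import Mathlib

set_option autoImplicit false

/-!
# SparseStack random matrices and oblivious subspace injections: definitions
-/

namespace Pool.Agent.H451_SparseStack

open Matrix

/-- A sample point of the SparseStack: for each row `i` and each block `j` a sign and a position
in `Fin b`. The uniform distribution on this finite set makes all signs and positions
independent and uniform. -/
abbrev Sample (n ζ b : ℕ) : Type := (Fin n → Fin ζ → Bool) × (Fin n → Fin ζ → Fin b)

/-- The SparseStack matrix with `n` rows and `ζ * b` columns: in block `j` of row `i` there is one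
nonzero entry, at the position `ω.2 i j`, equal to `1 / √ζ` or `- 1 / √ζ`. -/
noncomputable def sparseStack {n ζ b : ℕ} (ω : Sample n ζ b) :
    Matrix (Fin n) (Fin ζ × Fin b) ℝ :=
  Matrix.of fun i p => if ω.2 i p.1 = p.2 then (if ω.1 i p.1 then 1 else -1) / √(ζ : ℝ) else 0

/-- The square of the Euclidean norm. -/
def normSq {κ : Type} [Fintype κ] (x : κ → ℝ) : ℝ := ∑ i, x i ^ 2

/-- The probability of an event under the uniform distribution on a finite set. -/
noncomputable def prob {Ω : Type} [Fintype Ω] (E : Ω → Prop) : ℝ :=
  (Nat.card {ω : Ω // E ω} : ℝ) / (Fintype.card Ω : ℝ)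

/-- The expectation under the uniform distribution on a finite set. -/
noncomputable def mean {Ω : Type} [Fintype Ω] (f : Ω → ℝ) : ℝ :=
  (∑ ω, f ω) / (Fintype.card Ω : ℝ)

/-- The event that the transposed SparseStack is injective on `V` with parameter `α`. -/
def Injects {n ζ b : ℕ} (α : ℝ) (V : Submodule ℝ (Fin n → ℝ)) (ω : Sample n ζ b) : Prop :=
  ∀ x ∈ V, α * normSq x ≤ normSq ((sparseStack ω)ᵀ *ᵥ x)

/-- The SparseStack with `n` rows, sparsity `ζ` and block length `b` is an oblivious subspace
injection for `r`-dimensional subspaces with parameter `α` and failure probability `δ`. -/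
def IsOSI (n ζ b r : ℕ) (α δ : ℝ) : Prop :=
  (∀ x : Fin n → ℝ, mean (fun ω : Sample n ζ b => normSq ((sparseStack ω)ᵀ *ᵥ x)) = normSq x) ∧
  ∀ V : Submodule ℝ (Fin n → ℝ), Module.finrank ℝ V = r →
    1 - δ ≤ prob (fun ω : Sample n ζ b => Injects α V ω)

end Pool.Agent.H451_SparseStack
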