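import Pool.Agent.H451_SparseStack.Independence

set_option autoImplicit false

/-!
# Lower bound for the expected number of good rows
-/

namespace Pool.Agent.H451_SparseStack

open Finset

theorem frac_groups_fixed {n b K : ℕ} (hb : 1 ≤ b) (W : Fin K → Finset (Fin n))
    (hdis : ∀ i j, i ≠ j → Disjoint (W i) (W j)) (a : Fin b) (J : Finset (Fin K)) :
    prob (fun t : Fin n → Fin b => ∀ i ∈ J, ∃ w ∈ W i, t w = a)
      = ∏ i ∈ J, (1 - (1 - 1 / (b : ℝ)) ^ (W i).card) := by
  classical
  have : Nonempty (Fin b) := ⟨a⟩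
  induction J using Finset.induction_on with
  | empty =>
    have hpos : (0 : ℝ) < (Fintype.card (Fin n → Fin b) : ℝ) := by exact_mod_cast Fintype.card_pos
    simp only [Finset.notMem_empty, false_imp_iff, implies_true, Finset.prod_empty]
    rw [prob_eq, Finset.filter_true, Finset.card_univ]
    exact div_self hpos.ne'
  | insert i J hi ih =>
    rw [Finset.prod_insert hi, ← ih]
    have h1 : prob (fun t : Fin n → Fin b => ∀ i' ∈ insert i J, ∃ w ∈ W i', t w = a)
        = prob (fun t : Fin n → Fin b => (¬ ∀ w ∈ W i, t w ≠ a) ∧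
            (∀ i' ∈ J, ∃ w ∈ W i', t w = a)) := by
      congr 1
      funext t
      apply propext
      rw [Finset.forall_mem_insert]
      push Not
      rfl
    rw [h1, frac_and (W i), frac_not, frac_forall_ne hb]
    · intro t t' h
      apply not_congr
      constructor
      · intro h2 w hw; rw [← h w hw]; exact h2 w hw
      · intro h2 w hw; rw [h w hw]; exact h2 w hw
    · intro t t' h
      constructor
      · intro h2 i' hi'
        obtain ⟨w, hw, hwa⟩ := h2 i' hi'
        refine ⟨w, hw, ?_⟩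
        rw [← h w ?_]; exact hwa
        intro hwi
        exact (Finset.disjoint_left.mp (hdis i i' (fun e => hi (e ▸ hi'))) hwi) hw
      · intro h2 i' hi'
        obtain ⟨w, hw, hwa⟩ := h2 i' hi'
        refine ⟨w, hw, ?_⟩
        rw [h w ?_]; exact hwa
        intro hwi
        exact (Finset.disjoint_left.mp (hdis i i' (fun e => hi (e ▸ hi'))) hwi) hw

theorem frac_eq_const {n b : ℕ} (u : Fin n) (a : Fin b) :
    prob (fun t : Fin n → Fin b => t u = a) = 1 / (b : ℝ) := by
  classical
  have hb : 1 ≤ b := Nat.one_le_iff_ne_zero.mpr (fun h => (h ▸ a).elim0)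
  have : Nonempty (Fin b) := ⟨a⟩
  have h1 := frac_forall_ne (I := Fin n) hb {u} a
  have h2 : prob (fun t : Fin n → Fin b => ¬ (∀ w ∈ ({u} : Finset (Fin n)), t w ≠ a))
      = 1 / (b : ℝ) := by
    rw [frac_not, h1]; simp
  rw [← h2]
  congr 1
  funext t
  simp

theorem frac_groups {n b K : ℕ} (hb : 1 ≤ b) (u : Fin n) (W : Fin K → Finset (Fin n))
    (hdis : ∀ i j, i ≠ j → Disjoint (W i) (W j)) (hu : ∀ i, u ∉ W i) :
    prob (fun t : Fin n → Fin b => ∀ i, ∃ w ∈ W i, t w = t u)
      = ∏ i, (1 - (1 - 1 / (b : ℝ)) ^ (W i).card) := by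
  classical
  have hb0 : (0 : ℝ) < (b : ℝ) := by exact_mod_cast hb
  have : Nonempty (Fin b) := ⟨⟨0, hb⟩⟩
  have h1 : ∀ a : Fin b,
      prob (fun t : Fin n → Fin b => t u = a ∧ (∀ i ∈ (Finset.univ : Finset (Fin K)),
        ∃ w ∈ W i, t w = a))
      = (1 / (b : ℝ)) * ∏ i, (1 - (1 - 1 / (b : ℝ)) ^ (W i).card) := by
    intro a
    rw [frac_and {u}, frac_eq_const, frac_groups_fixed hb W hdis a]
    · intro t t' h
      rw [h u (Finset.mem_singleton_self u)]
    · intro t t' h
      constructor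
      · intro h2 i hi
        obtain ⟨w, hw, hwa⟩ := h2 i hi
        refine ⟨w, hw, ?_⟩
        rw [← h w ?_]; exact hwa
        intro hwi
        rw [Finset.mem_singleton] at hwi
        exact hu i (hwi ▸ hw)
      · intro h2 i hi
        obtain ⟨w, hw, hwa⟩ := h2 i hi
        refine ⟨w, hw, ?_⟩
        rw [h w ?_]; exact hwa
        intro hwi
        rw [Finset.mem_singleton] at hwi
        exact hu i (hwi ▸ hw)
  have h2 : (Finset.univ.filter fun t : Fin n → Fin b => ∀ i, ∃ w ∈ W i, t w = t u).card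
      = ∑ a : Fin b, (Finset.univ.filter fun t : Fin n → Fin b =>
          t u = a ∧ (∀ i ∈ (Finset.univ : Finset (Fin K)), ∃ w ∈ W i, t w = a)).card := by
    rw [Finset.card_eq_sum_card_fiberwise (f := fun t : Fin n → Fin b => t u)
      (t := Finset.univ) (fun _ _ => Finset.mem_univ _)]
    refine Finset.sum_congr rfl fun a _ => ?_
    congr 1
    ext t
    simp only [Finset.mem_filter, Finset.mem_univ, true_and, true_imp_iff]
    constructor
    · rintro ⟨h3, h4⟩
      exact ⟨h4, fun i => by rw [← h4]; exact h3 i⟩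
    · rintro ⟨h3, h4⟩
      exact ⟨fun i => by rw [h3]; exact h4 i, h3⟩
  have h3 : prob (fun t : Fin n → Fin b => ∀ i, ∃ w ∈ W i, t w = t u)
      = ∑ a : Fin b, prob (fun t : Fin n → Fin b =>
          t u = a ∧ (∀ i ∈ (Finset.univ : Finset (Fin K)), ∃ w ∈ W i, t w = a)) := by
    rw [prob_eq, h2]
    simp only [prob_eq]
    rw [← Finset.sum_div]
    push_cast
    rfl
  rw [h3, Finset.sum_congr rfl (fun a _ => h1 a)]
  simp only [Finset.sum_const, Finset.card_univ, Fintype.card_fin, nsmul_eq_mul]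
  field_simp

theorem frac_mono {Ω : Type} [Fintype Ω] (P Q : Ω → Prop)
    (h : ∀ t, P t → Q t) : prob P ≤ prob Q := by
  classical
  rw [prob_eq P, prob_eq Q]
  apply div_le_div_of_nonneg_right _ (Nat.cast_nonneg _)
  exact_mod_cast Finset.card_le_card (Finset.monotone_filter_right _ (fun t _ => h t))

theorem group_base {b m : ℕ} (hb : 1 ≤ b) :
    (m : ℝ) / ((b : ℝ) + m) ≤ 1 - (1 - 1 / (b : ℝ)) ^ m := by
  have hb0 : (0 : ℝ) < (b : ℝ) := by exact_mod_cast hb
  have hb1 : (1 : ℝ) ≤ (b : ℝ) := by exact_mod_cast hb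
  have hm0 : (0 : ℝ) ≤ (m : ℝ) := Nat.cast_nonneg _
  have h1 : 1 - 1 / (b : ℝ) ≤ Real.exp (-(1 / (b : ℝ))) := by
    have := Real.add_one_le_exp (-(1 / (b : ℝ))); linarith
  have h0 : 0 ≤ 1 - 1 / (b : ℝ) := by
    rw [sub_nonneg, div_le_one hb0]; exact hb1
  have h2 : (1 - 1 / (b : ℝ)) ^ m ≤ Real.exp (-((m : ℝ) / b)) := by
    calc (1 - 1 / (b : ℝ)) ^ m ≤ (Real.exp (-(1 / (b : ℝ)))) ^ m := by gcongr
      _ = Real.exp (-((m : ℝ) / b)) := by
        rw [← Real.exp_nat_mul]; congr 1; ring
  have h3 : Real.exp (-((m : ℝ) / b)) ≤ (b : ℝ) / (b + m) := by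
    rw [Real.exp_neg]
    have h4 : 1 + (m : ℝ) / b ≤ Real.exp ((m : ℝ) / b) := by
      have := Real.add_one_le_exp ((m : ℝ) / b); linarith
    have h5 : (0 : ℝ) < 1 + (m : ℝ) / b := by positivity
    calc (Real.exp ((m : ℝ) / b))⁻¹ ≤ (1 + (m : ℝ) / b)⁻¹ := by gcongr
      _ = (b : ℝ) / (b + m) := by field_simp
  have h6 : (m : ℝ) / ((b : ℝ) + m) = 1 - (b : ℝ) / (b + m) := by field_simp; ring
  rw [h6]
  linarith

/-- Lower bound for the probability that a row has at least `K` mates in one block. -/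
theorem frac_count_ge {n b K m : ℕ} (hb : 1 ≤ b) (S : Finset (Fin n)) (u : Fin n) (hu : u ∈ S)
    (hm : K * m + 1 ≤ S.card) :
    ((m : ℝ) / ((b : ℝ) + m)) ^ K
      ≤ prob (fun t : Fin n → Fin b => K ≤ (S.filter fun w => w ≠ u ∧ t w = t u).card) := by
  classical
  have hT : K * m ≤ (S.erase u).card := by
    rw [Finset.card_erase_of_mem hu]; omega
  let e := Finset.orderEmbOfCardLe (S.erase u) hT
  have he : ∀ x, e x ∈ S.erase u := fun x => Finset.orderEmbOfCardLe_mem _ _ _
  let W : Fin K → Finset (Fin n) := fun i => Finset.univ.image fun j : Fin m =>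
    e (finProdFinEquiv (i, j))
  have hWcard : ∀ i, (W i).card = m := by
    intro i
    simp only [W]
    rw [Finset.card_image_of_injective, Finset.card_univ, Fintype.card_fin]
    intro j j' hjj
    have h1 := e.injective hjj
    have h2 := finProdFinEquiv.injective h1
    exact (Prod.mk.inj h2).2
  have hdis : ∀ i j, i ≠ j → Disjoint (W i) (W j) := by
    intro i j hij
    rw [Finset.disjoint_left]
    intro w hw hw'
    simp only [W, Finset.mem_image, Finset.mem_univ, true_and] at hw hw'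
    obtain ⟨x, hx⟩ := hw
    obtain ⟨y, hy⟩ := hw'
    have h1 := e.injective (hx.trans hy.symm)
    have h2 := finProdFinEquiv.injective h1
    exact hij (Prod.mk.inj h2).1
  have hWsub : ∀ i, ∀ w ∈ W i, w ∈ S ∧ w ≠ u := by
    intro i w hw
    simp only [W, Finset.mem_image, Finset.mem_univ, true_and] at hw
    obtain ⟨x, hx⟩ := hw
    have := he (finProdFinEquiv (i, x))
    rw [hx, Finset.mem_erase] at this
    exact ⟨this.2, this.1⟩
  have huW : ∀ i, u ∉ W i := fun i h => (hWsub i u h).2 rfl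
  have h1 := frac_groups hb u W hdis huW
  have h2 : ((m : ℝ) / ((b : ℝ) + m)) ^ K
      ≤ ∏ i, (1 - (1 - 1 / (b : ℝ)) ^ (W i).card) := by
    have : ∀ i, (1 - (1 - 1 / (b : ℝ)) ^ (W i).card) = (1 - (1 - 1 / (b : ℝ)) ^ m) := by
      intro i; rw [hWcard i]
    rw [Finset.prod_congr rfl (fun i _ => this i), Finset.prod_const, Finset.card_univ,
      Fintype.card_fin]
    have h0 : 0 ≤ (m : ℝ) / ((b : ℝ) + m) := by positivity
    exact pow_le_pow_left₀ h0 (group_base hb) K
  rw [← h1] at h2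
  refine le_trans h2 (frac_mono _ _ ?_)
  intro t ht
  choose w hw hwt using ht
  have hinj : Function.Injective w := by
    intro i j hij
    by_contra hne
    exact Finset.disjoint_left.mp (hdis i j hne) (hw i) (hij ▸ hw j)
  calc K = (Finset.univ.image w).card := by
        rw [Finset.card_image_of_injective _ hinj, Finset.card_univ, Fintype.card_fin]
    _ ≤ _ := by
        apply Finset.card_le_card
        intro x hx
        simp only [Finset.mem_image, Finset.mem_univ, true_and] at hx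
        obtain ⟨i, rfl⟩ := hx
        rw [Finset.mem_filter]
        exact ⟨(hWsub i _ (hw i)).1, (hWsub i _ (hw i)).2, hwt i⟩

/-- Independence across blocks. -/
theorem frac_blocks {n ζ b : ℕ} (P : (Fin n → Fin b) → Prop) :
    prob (fun s : Fin n → Fin ζ → Fin b => ∀ j, P (fun i => s i j)) = (prob P) ^ ζ := by
  classical
  rw [prob_eq, prob_eq P]
  have h1 : (Finset.univ.filter fun s : Fin n → Fin ζ → Fin b => ∀ j, P (fun i => s i j)).card
      = (Finset.univ.filter P).card ^ ζ := by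
    have h2 : (Fintype.piFinset fun _ : Fin ζ => Finset.univ.filter P).card
        = (Finset.univ.filter P).card ^ ζ := by
      rw [Fintype.card_piFinset]; simp
    rw [← h2]
    refine Finset.card_bij' (fun s _ => fun j i => s i j) (fun s _ => fun i j => s j i) ?_ ?_ ?_ ?_
    · intro s hs
      rw [Fintype.mem_piFinset]
      intro j
      rw [Finset.mem_filter] at hs ⊢
      exact ⟨Finset.mem_univ _, hs.2 j⟩
    · intro s hs
      rw [Fintype.mem_piFinset] at hs
      rw [Finset.mem_filter]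
      refine ⟨Finset.mem_univ _, fun j => ?_⟩
      have := hs j
      rw [Finset.mem_filter] at this
      exact this.2
    · intro s _; rfl
    · intro s _; rfl
  rw [h1, div_pow]
  congr 1
  · push_cast; rfl
  · have : Fintype.card (Fin n → Fin ζ → Fin b) = (Fintype.card (Fin n → Fin b)) ^ ζ := by
      simp only [Fintype.card_fun, Fintype.card_fin]
      rw [← pow_mul, ← pow_mul, mul_comm]
    rw [this]; push_cast; rfl

/-- Lower bound for the expected number of good rows. -/
theorem sum_card_goodRows_ge {n ζ b K m : ℕ} (hb : 1 ≤ b) (S : Finset (Fin n))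
    (hm : K * m + 1 ≤ S.card) :
    (S.card : ℝ) * ((m : ℝ) / ((b : ℝ) + m)) ^ (K * ζ)
        * (Fintype.card (Fin n → Fin ζ → Fin b) : ℝ)
      ≤ ∑ s : Fin n → Fin ζ → Fin b, ((goodRows S K s).card : ℝ) := by
  classical
  have hpos : (0 : ℝ) < (Fintype.card (Fin n → Fin ζ → Fin b) : ℝ) := by
    have : Nonempty (Fin b) := ⟨⟨0, hb⟩⟩
    exact_mod_cast Fintype.card_pos
  have h1 : ∀ u ∈ S, ((m : ℝ) / ((b : ℝ) + m)) ^ (K * ζ)
      * (Fintype.card (Fin n → Fin ζ → Fin b) : ℝ)
      ≤ ((Finset.univ.filter fun s : Fin n → Fin ζ → Fin b =>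
          ∀ j, K ≤ (mates S s u j).card).card : ℝ) := by
    intro u hu
    have h2 := frac_blocks (ζ := ζ)
      (fun t : Fin n → Fin b => K ≤ (S.filter fun w => w ≠ u ∧ t w = t u).card)
    have h3 := frac_count_ge hb S u hu hm
    have h0 : 0 ≤ ((m : ℝ) / ((b : ℝ) + m)) ^ K := by positivity
    have h4 : ((m : ℝ) / ((b : ℝ) + m)) ^ (K * ζ)
        ≤ prob (fun s : Fin n → Fin ζ → Fin b => ∀ j, K ≤ (mates S s u j).card) := by
      rw [pow_mul]
      refine le_trans (pow_le_pow_left₀ h0 h3 ζ) (le_of_eq ?_)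
      rw [← h2]
      rfl
    rw [prob_eq] at h4
    rwa [le_div_iff₀ hpos] at h4
  have h5 : ∀ s : Fin n → Fin ζ → Fin b, ((goodRows S K s).card : ℝ)
      = ∑ u ∈ S, if (∀ j, K ≤ (mates S s u j).card) then (1 : ℝ) else 0 := by
    intro s
    rw [Finset.sum_boole]
    rfl
  rw [Finset.sum_congr rfl (fun s _ => h5 s), Finset.sum_comm]
  have h6 : ∀ u ∈ S, ((m : ℝ) / ((b : ℝ) + m)) ^ (K * ζ)
      * (Fintype.card (Fin n → Fin ζ → Fin b) : ℝ)
      ≤ ∑ s : Fin n → Fin ζ → Fin b, if (∀ j, K ≤ (mates S s u j).card) then (1 : ℝ) else 0 := by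
    intro u hu
    rw [Finset.sum_boole]
    exact h1 u hu
  refine le_trans (le_of_eq ?_) (Finset.sum_le_sum h6)
  rw [Finset.sum_const, nsmul_eq_mul]
  ring

end Pool.Agent.H451_SparseStack
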