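import Pool.Agent.H451_SparseStack.Buckets

set_option autoImplicit false

/-!
# Counting with independence
-/

namespace Pool.Agent.H451_SparseStack

open Finset

/-- Independence: if `P` depends only on coordinates in `X` and `Q` only on coordinates outside
`X`, then the numbers of points multiply. -/
theorem card_and_mul_card {I β : Type} [Fintype I] [DecidableEq I] [Fintype β]
    (X : Finset I) (P Q : (I → β) → Prop) [DecidablePred P] [DecidablePred Q]
    (hP : ∀ t t' : I → β, (∀ i ∈ X, t i = t' i) → (P t ↔ P t'))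
    (hQ : ∀ t t' : I → β, (∀ i, i ∉ X → t i = t' i) → (Q t ↔ Q t')) :
    (Finset.univ.filter fun t : I → β => P t ∧ Q t).card * Fintype.card (I → β)
      = (Finset.univ.filter fun t : I → β => P t).card
        * (Finset.univ.filter fun t : I → β => Q t).card := by
  classical
  rw [← Finset.card_univ, ← Finset.card_product, ← Finset.card_product]
  let mix : (I → β) → (I → β) → (I → β) := fun t t' i => if i ∈ X then t i else t' i
  have hmm : ∀ t t', mix (mix t t') (mix t' t) = t := by
    intro t t'
    funext i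
    by_cases h : i ∈ X <;> simp [mix, h]
  refine Finset.card_bij' (fun p _ => (mix p.1 p.2, mix p.2 p.1))
    (fun p _ => (mix p.1 p.2, mix p.2 p.1)) ?_ ?_ ?_ ?_
  · rintro ⟨t, t'⟩ ht
    simp only [Finset.mem_product, Finset.mem_filter, Finset.mem_univ, true_and, and_true] at ht ⊢
    refine ⟨(hP _ t ?_).mpr ht.1, (hQ _ t ?_).mpr ht.2⟩
    · intro i hi; simp [mix, hi]
    · intro i hi; simp [mix, hi]
  · rintro ⟨t, t'⟩ ht
    simp only [Finset.mem_product, Finset.mem_filter, Finset.mem_univ, true_and, and_true] at ht ⊢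
    refine ⟨(hP _ t ?_).mpr ht.1, (hQ _ t' ?_).mpr ht.2⟩
    · intro i hi; simp [mix, hi]
    · intro i hi; simp [mix, hi]
  · rintro ⟨t, t'⟩ _
    simp only [hmm]
  · rintro ⟨t, t'⟩ _
    simp only [hmm]

/-- The probability as a quotient of cardinalities of finite sets. -/
theorem prob_eq {Ω : Type} [Fintype Ω] (P : Ω → Prop) [DecidablePred P] :
    prob P = ((Finset.univ.filter P).card : ℝ) / (Fintype.card Ω : ℝ) := by
  rw [prob, Nat.card_eq_fintype_card, Fintype.card_subtype]

theorem frac_and {I β : Type} [Fintype I] [DecidableEq I] [Fintype β] [Nonempty β]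
    (X : Finset I) (P Q : (I → β) → Prop)
    (hP : ∀ t t' : I → β, (∀ i ∈ X, t i = t' i) → (P t ↔ P t'))
    (hQ : ∀ t t' : I → β, (∀ i, i ∉ X → t i = t' i) → (Q t ↔ Q t')) :
    prob (fun t : I → β => P t ∧ Q t) = prob P * prob Q := by
  classical
  have h := card_and_mul_card X P Q hP hQ
  have hpos : (0 : ℝ) < (Fintype.card (I → β) : ℝ) := by exact_mod_cast Fintype.card_pos
  have h' : ((Finset.univ.filter fun t : I → β => P t ∧ Q t).card : ℝ)
      * (Fintype.card (I → β) : ℝ)
      = ((Finset.univ.filter fun t : I → β => P t).card : ℝ)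
        * ((Finset.univ.filter fun t : I → β => Q t).card : ℝ) := by exact_mod_cast h
  rw [prob_eq, prob_eq P, prob_eq Q]
  field_simp
  linarith

/-- The fraction of functions avoiding the value `a` on `W`. -/
theorem frac_forall_ne {I : Type} [Fintype I] [DecidableEq I] {b : ℕ} (hb : 1 ≤ b)
    (W : Finset I) (a : Fin b) :
    prob (fun t : I → Fin b => ∀ w ∈ W, t w ≠ a) = (1 - 1 / (b : ℝ)) ^ W.card := by
  classical
  have h1 : (Finset.univ.filter fun t : I → Fin b => ∀ w ∈ W, t w ≠ a)
      = Fintype.piFinset (fun i => if i ∈ W then (Finset.univ.erase a) else Finset.univ) := by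
    ext t
    simp only [Finset.mem_filter, Finset.mem_univ, true_and, Fintype.mem_piFinset]
    constructor
    · intro h i
      by_cases hi : i ∈ W
      · simp [hi, h i hi]
      · simp [hi]
    · intro h w hw
      have := h w
      simp only [if_pos hw, Finset.mem_erase, Finset.mem_univ, and_true] at this
      exact this
  have hb0 : (0 : ℝ) < (b : ℝ) := by exact_mod_cast hb
  rw [prob_eq, h1, Fintype.card_piFinset, Fintype.card_fun]
  have h2 : ∀ i, (if i ∈ W then ((Finset.univ : Finset (Fin b)).erase a) else Finset.univ).card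
      = if i ∈ W then (b - 1) else b := by
    intro i
    by_cases hi : i ∈ W
    · simp [hi]
    · simp [hi]
  rw [Finset.prod_congr rfl (fun i _ => h2 i)]
  push_cast
  rw [Fintype.card_fin]
  have h3 : ((b : ℝ)) ^ Fintype.card I = ∏ _i : I, (b : ℝ) := by simp
  rw [h3, ← Finset.prod_div_distrib]
  have h4 : ∀ i : I, ((if i ∈ W then ((b - 1 : ℕ) : ℝ) else (b : ℝ)) / (b : ℝ))
      = if i ∈ W then (1 - 1 / (b : ℝ)) else 1 := by
    intro i
    by_cases hi : i ∈ W
    · simp only [if_pos hi]
      rw [Nat.cast_sub hb]; push_cast; field_simp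
    · simp only [if_neg hi]; field_simp
  rw [Finset.prod_congr rfl (fun i _ => h4 i)]
  simp [Finset.prod_ite_mem]

theorem frac_not {Ω : Type} [Fintype Ω] [Nonempty Ω] (P : Ω → Prop) :
    prob (fun t => ¬ P t) = 1 - prob P := by
  classical
  have hpos : (0 : ℝ) < (Fintype.card Ω : ℝ) := by exact_mod_cast Fintype.card_pos
  have h := Finset.card_filter_add_card_filter_not (s := (Finset.univ : Finset Ω)) P
  rw [Finset.card_univ] at h
  have h' : ((Finset.univ.filter P).card : ℝ)
      + ((Finset.univ.filter fun t => ¬ P t).card : ℝ) = (Fintype.card Ω : ℝ) := by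
    exact_mod_cast h
  rw [prob_eq, prob_eq P]
  field_simp
  linarith

end Pool.Agent.H451_SparseStack
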