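import Pool.Agent.H451_SparseStack.Signs

set_option autoImplicit false

/-!
# Isotropy of the SparseStack
-/

namespace Pool.Agent.H451_SparseStack

open Finset Matrix

theorem isotropy {n ζ b : ℕ} (hζ : 1 ≤ ζ) (hb : 1 ≤ b) (x : Fin n → ℝ) :
    mean (fun ω : Sample n ζ b => normSq ((sparseStack ω)ᵀ *ᵥ x)) = normSq x := by
  classical
  have : Nonempty (Fin b) := ⟨⟨0, hb⟩⟩
  have hζ0 : (0 : ℝ) < (ζ : ℝ) := by exact_mod_cast hζ
  have hpos : (0 : ℝ) < (Fintype.card (Sample n ζ b) : ℝ) := by exact_mod_cast Fintype.card_pos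
  rw [mean, div_eq_iff hpos.ne']
  -- the entries
  let E : Fin ζ → Fin b → Fin n → Sample n ζ b → ℝ := fun l p v ω =>
    (if ω.2 v l = p then sg (ω.1 v l) / √(ζ : ℝ) else 0) * x v
  have h1 : ∀ ω : Sample n ζ b, normSq ((sparseStack ω)ᵀ *ᵥ x)
      = ∑ l : Fin ζ, ∑ p : Fin b, (∑ v, E l p v ω) ^ 2 := by
    intro ω
    rw [normSq, Fintype.sum_prod_type]
    rfl
  rw [Finset.sum_congr rfl (fun ω _ => h1 ω), Finset.sum_comm]
  have horth : ∀ (l : Fin ζ) (p : Fin b) (v v' : Fin n), v ≠ v' →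
      ∑ ω, E l p v ω * E l p v' ω = 0 := by
    intro l p v v' hvv
    rw [Fintype.sum_prod_type_right]
    refine Finset.sum_eq_zero fun s _ => ?_
    refine sum_eq_zero_of_flip v l _ fun ρ => ?_
    simp only [E]
    rw [flipAt_self, flipAt_of_ne _ _ _ _ _ hvv.symm, sg_not]
    split_ifs <;> ring
  have h2 : ∀ (l : Fin ζ), ∑ ω : Sample n ζ b, ∑ p : Fin b, (∑ v, E l p v ω) ^ 2
      = normSq x * (Fintype.card (Sample n ζ b) : ℝ) / ζ := by
    intro l
    rw [Finset.sum_comm]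
    have h3 : ∀ p : Fin b, ∑ ω : Sample n ζ b, (∑ v, E l p v ω) ^ 2
        = ∑ v, ∑ ω, E l p v ω * E l p v ω := fun p =>
      sum_sq_eq (fun v ω => E l p v ω) (horth l p)
    rw [Finset.sum_congr rfl (fun p _ => h3 p), Finset.sum_comm]
    have h4 : ∀ v : Fin n, ∑ p : Fin b, ∑ ω, E l p v ω * E l p v ω
        = x v ^ 2 * ((Fintype.card (Sample n ζ b) : ℝ) / ζ) := by
      intro v
      rw [Finset.sum_comm]
      have h5 : ∀ ω : Sample n ζ b, ∑ p : Fin b, E l p v ω * E l p v ω = x v ^ 2 / ζ := by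
        intro ω
        rw [Finset.sum_eq_single (ω.2 v l)]
        · simp only [E, if_true]
          have e1 := sg_mul_self (ω.1 v l)
          have e2 : √(ζ : ℝ) * √(ζ : ℝ) = ζ := Real.mul_self_sqrt hζ0.le
          calc sg (ω.1 v l) / √(ζ : ℝ) * x v * (sg (ω.1 v l) / √(ζ : ℝ) * x v)
              = (sg (ω.1 v l) * sg (ω.1 v l)) * x v ^ 2 / (√(ζ : ℝ) * √(ζ : ℝ)) := by ring
            _ = x v ^ 2 / ζ := by rw [e1, e2, one_mul]
        · intro p _ hp
          simp only [E, if_neg hp.symm, zero_mul]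
        · intro h; exact absurd (Finset.mem_univ _) h
      rw [Finset.sum_congr rfl (fun ω _ => h5 ω), Finset.sum_const, Finset.card_univ,
        nsmul_eq_mul]
      ring
    rw [Finset.sum_congr rfl (fun v _ => h4 v), ← Finset.sum_mul, normSq]
    ring
  rw [Finset.sum_congr rfl (fun l _ => h2 l), Finset.sum_const, Finset.card_univ,
    Fintype.card_fin, nsmul_eq_mul]
  field_simp

end Pool.Agent.H451_SparseStack
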