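import Pool.Agent.H451_SparseStack.Signs

set_option autoImplicit false

/-!
# The finite bound and its asymptotic form
-/

namespace Pool.Agent.H451_SparseStack

open Finset Matrix

/-- The explicit upper bound for the probability of injectivity on a coordinate subspace. -/
theorem prob_injects_le {n ζ b K m : ℕ} (hζ : 1 ≤ ζ) (hb : 1 ≤ b) (hK : 1 ≤ K) (hm1 : 1 ≤ m)
    {α : ℝ} (hα : 0 < α) (S : Finset (Fin n)) (V : Submodule ℝ (Fin n → ℝ))
    (hV : ∀ x : Fin n → ℝ, (∀ i, i ∉ S → x i = 0) → x ∈ V) (hm : K * m + 1 ≤ S.card) :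
    prob (fun ω : Sample n ζ b => Injects α V ω)
      ≤ ((ζ : ℝ) - 1) / ((K : ℝ) * α) + ((ζ : ℝ) * K + 1) ^ 2
        / ((S.card : ℝ) * (((m : ℝ) / ((b : ℝ) + m)) ^ (K * ζ)) ^ 2) := by
  classical
  have : Nonempty (Fin b) := ⟨⟨0, hb⟩⟩
  have hMpos : (0 : ℝ) < (Fintype.card (Fin n → Fin ζ → Fin b) : ℝ) := by
    exact_mod_cast Fintype.card_pos
  have hRpos : (0 : ℝ) < (Fintype.card (Fin n → Fin ζ → Bool) : ℝ) := by
    exact_mod_cast Fintype.card_pos
  have hζ1 : (1 : ℝ) ≤ (ζ : ℝ) := by exact_mod_cast hζ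
  have hK0 : (0 : ℝ) < (K : ℝ) := by exact_mod_cast hK
  set M : ℝ := (Fintype.card (Fin n → Fin ζ → Fin b) : ℝ) with hM
  set R : ℝ := (Fintype.card (Fin n → Fin ζ → Bool) : ℝ) with hR
  set η : ℝ := ((ζ : ℝ) - 1) / ((K : ℝ) * α) with hη
  have hη0 : 0 ≤ η := by rw [hη]; apply div_nonneg; linarith; positivity
  refine le_trans ?_ (add_le_add_right (prob_no_good (ζ := ζ) hb hm1 S hm) η)
  rw [prob_eq, prob_eq, ← hM]
  have hcard : (Fintype.card (Sample n ζ b) : ℝ) = R * M := by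
    rw [Fintype.card_prod]; push_cast; rfl
  rw [hcard]
  have h1 : ((Finset.univ.filter fun ω : Sample n ζ b => Injects α V ω).card : ℝ)
      = ∑ s : Fin n → Fin ζ → Fin b,
        ((Finset.univ.filter fun ρ : Fin n → Fin ζ → Bool =>
          Injects α V ((ρ, s) : Sample n ζ b)).card : ℝ) := by
    rw [← Finset.sum_boole, Fintype.sum_prod_type_right]
    refine Finset.sum_congr rfl fun s _ => ?_
    rw [Finset.sum_boole]
  have h2 : ∀ s : Fin n → Fin ζ → Fin b,
      ((Finset.univ.filter fun ρ : Fin n → Fin ζ → Bool =>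
          Injects α V ((ρ, s) : Sample n ζ b)).card : ℝ)
      ≤ η * R + (if goodRows S K s = ∅ then R else 0) := by
    intro s
    by_cases hs : goodRows S K s = ∅
    · rw [if_pos hs]
      have h3 : ((Finset.univ.filter fun ρ : Fin n → Fin ζ → Bool =>
          Injects α V ((ρ, s) : Sample n ζ b)).card : ℝ) ≤ R := by
        rw [hR]
        exact_mod_cast Finset.card_le_univ _
      have : 0 ≤ η * R := mul_nonneg hη0 hRpos.le
      linarith
    · rw [if_neg hs, add_zero]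
      exact card_signs_le hζ hK hα S V hV s (Finset.nonempty_iff_ne_empty.mpr hs)
  have h3 : ((Finset.univ.filter fun ω : Sample n ζ b => Injects α V ω).card : ℝ)
      ≤ η * (R * M) + R * ((Finset.univ.filter fun s : Fin n → Fin ζ → Fin b =>
        goodRows S K s = ∅).card : ℝ) := by
    rw [h1]
    refine le_trans (Finset.sum_le_sum fun s _ => h2 s) (le_of_eq ?_)
    rw [Finset.sum_add_distrib, Finset.sum_const, Finset.card_univ, nsmul_eq_mul,
      ← Finset.sum_filter, Finset.sum_const, nsmul_eq_mul]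
    ring
  rw [div_le_iff₀ (mul_pos hRpos hMpos)]
  refine le_trans h3 (le_of_eq ?_)
  field_simp

/-- The span of the first `r` vectors of the standard basis. -/
noncomputable def coordSubspace {n r : ℕ} (h : r ≤ n) : Submodule ℝ (Fin n → ℝ) :=
  Submodule.span ℝ (Set.range fun i : Fin r => Pi.single (Fin.castLE h i) (1 : ℝ))

theorem finrank_coordSubspace {n r : ℕ} (h : r ≤ n) :
    Module.finrank ℝ (coordSubspace h) = r := by
  have h1 : LinearIndependent ℝ (fun i : Fin r => Pi.basisFun ℝ (Fin n) (Fin.castLE h i)) :=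
    (Pi.basisFun ℝ (Fin n)).linearIndependent.comp _ (Fin.castLE_injective h)
  have h2 : (fun i : Fin r => Pi.basisFun ℝ (Fin n) (Fin.castLE h i))
      = fun i : Fin r => (Pi.single (Fin.castLE h i) (1 : ℝ) : Fin n → ℝ) := by
    funext i
    rw [Pi.basisFun_apply]
  rw [h2] at h1
  rw [coordSubspace, finrank_span_eq_card h1, Fintype.card_fin]

theorem mem_coordSubspace {n r : ℕ} (h : r ≤ n) (x : Fin n → ℝ)
    (hx : ∀ i, i ∉ (Finset.univ.image (Fin.castLE h)) → x i = 0) : x ∈ coordSubspace h := by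
  have h1 : x = ∑ v, x v • (Pi.single v (1 : ℝ) : Fin n → ℝ) := by
    funext w
    simp [Finset.sum_apply, Pi.single_apply]
  rw [h1]
  refine Submodule.sum_mem _ fun v _ => ?_
  by_cases hv : v ∈ Finset.univ.image (Fin.castLE h)
  · rw [Finset.mem_image] at hv
    obtain ⟨i, _, rfl⟩ := hv
    exact Submodule.smul_mem _ _ (Submodule.subset_span ⟨i, rfl⟩)
  · rw [hx v hv, zero_smul]
    exact Submodule.zero_mem _

/-- Growth estimate used below. -/
theorem eventually_growth (a ε : ℝ) (hε : 0 < ε) :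
    ∀ᶠ x : ℝ in Filter.atTop, (a * Real.log x + 1) ^ 2 ≤ ε * √x := by
  have hq : (0 : ℝ) < 1 / 4 := by norm_num
  have h1 : (fun x : ℝ => a * Real.log x) =o[Filter.atTop] fun x : ℝ => x ^ (1 / 4 : ℝ) :=
    (isLittleO_log_rpow_atTop hq).const_mul_left a
  have h2 : (fun _ : ℝ => (1 : ℝ)) =o[Filter.atTop] fun x : ℝ => x ^ (1 / 4 : ℝ) := by
    rw [Asymptotics.isLittleO_const_left]
    right
    exact (tendsto_norm_atTop_atTop).comp (tendsto_rpow_atTop hq)
  have h3 := (h1.add h2).pow (n := 2) (by norm_num)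
  filter_upwards [h3.def hε, Filter.eventually_ge_atTop (0 : ℝ)] with x hx hx0
  have h4 : (x ^ (1 / 4 : ℝ)) ^ 2 = √x := by
    rw [← Real.rpow_natCast, ← Real.rpow_mul hx0, Real.sqrt_eq_rpow]
    norm_num
  rw [Real.norm_eq_abs, Real.norm_eq_abs, h4, abs_of_nonneg (sq_nonneg _),
    abs_of_nonneg (Real.sqrt_nonneg _)] at hx
  exact hx

theorem eventually_growth' (a : ℝ) :
    ∀ᶠ x : ℝ in Filter.atTop, a * Real.log x ≤ x := by
  have h1 : (fun x : ℝ => a * Real.log x) =o[Filter.atTop] fun x : ℝ => x :=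
    (Real.isLittleO_log_id_atTop).const_mul_left a
  filter_upwards [h1.def one_pos, Filter.eventually_ge_atTop (0 : ℝ)] with x hx hx0
  rw [Real.norm_eq_abs, Real.norm_eq_abs, one_mul, abs_of_nonneg hx0] at hx
  exact (abs_le.mp hx).2

/-- The main theorem: a SparseStack with sparsity `ζ ≤ c √(log r)` and `ζ b ≤ C r` columns fails to
be injective with parameter `α` on a coordinate subspace with probability at least `1 - ε`. -/
theorem main (C α ε : ℝ) (hC : 0 < C) (hα : 0 < α) (hε : 0 < ε) :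
    ∃ c : ℝ, 0 < c ∧ ∃ r₀ : ℕ, ∀ n r : ℕ, r₀ ≤ r → ∀ h : r ≤ n, ∀ ζ b : ℕ, 1 ≤ ζ → 1 ≤ b →
      (ζ : ℝ) * b ≤ C * r → (ζ : ℝ) ≤ c * √(Real.log r) →
      prob (fun ω : Sample n ζ b => Injects α (coordSubspace h) ω) ≤ ε := by
  classical
  -- constants
  set κ : ℕ := ⌈2 / (α * ε)⌉₊ + 1 with hκ
  have hκ1 : 1 ≤ κ := by omega
  have hκ0 : (0 : ℝ) < (κ : ℝ) := by exact_mod_cast hκ1
  have hκ2 : 2 / (α * ε) ≤ (κ : ℝ) := by
    rw [hκ]; push_cast
    have := Nat.le_ceil (2 / (α * ε))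
    linarith
  set D : ℝ := 1 + 2 * C * κ with hD
  have hD1 : 1 < D := by rw [hD]; have : 0 < 2 * C * κ := by positivity
                         linarith
  have hD0 : 0 < D := by linarith
  have hlogD : 0 < Real.log D := Real.log_pos hD1
  set a : ℝ := 1 / (4 * Real.log D) with ha
  have ha0 : 0 < a := by rw [ha]; positivity
  refine ⟨√(a / κ), Real.sqrt_pos.mpr (by positivity), ?_⟩
  have hev1 := tendsto_natCast_atTop_atTop.eventually
    (eventually_growth a (ε / 2) (by positivity))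
  have hev2 := tendsto_natCast_atTop_atTop.eventually (eventually_growth' (2 * a))
  obtain ⟨r₀, hr₀⟩ := Filter.eventually_atTop.mp (hev1.and (hev2.and
    (Filter.eventually_ge_atTop 2)))
  refine ⟨r₀, ?_⟩
  intro n r hr h ζ b hζ hb hζb hζc
  obtain ⟨hg1, hg2, hr2⟩ := hr₀ r hr
  have hr0 : (0 : ℝ) < (r : ℝ) := by
    have : 0 < r := by omega
    exact_mod_cast this
  have hr1 : (1 : ℝ) < (r : ℝ) := by
    have : 1 < r := by omega
    exact_mod_cast this
  have hlogr : 0 < Real.log r := Real.log_pos hr1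
  have hζ1 : (1 : ℝ) ≤ (ζ : ℝ) := by exact_mod_cast hζ
  have hζ0 : (0 : ℝ) < (ζ : ℝ) := by linarith
  -- κ ζ² ≤ a log r
  have hkz : (κ : ℝ) * (ζ : ℝ) ^ 2 ≤ a * Real.log r := by
    have h1 : (ζ : ℝ) ^ 2 ≤ (√(a / κ) * √(Real.log r)) ^ 2 := by gcongr
    rw [mul_pow, Real.sq_sqrt (by positivity), Real.sq_sqrt hlogr.le] at h1
    calc (κ : ℝ) * (ζ : ℝ) ^ 2 ≤ κ * (a / κ * Real.log r) := by gcongr
      _ = a * Real.log r := by field_simp
  set K : ℕ := κ * ζ with hKdef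
  have hK1 : 1 ≤ K := Nat.mul_pos hκ1 hζ
  have hK0 : (0 : ℝ) < (K : ℝ) := by exact_mod_cast hK1
  have hKr : (K : ℝ) = κ * ζ := by rw [hKdef]; push_cast; ring
  have h2K : 2 * (K : ℝ) ≤ r := by
    have h1 : (κ : ℝ) * ζ ≤ κ * (ζ : ℝ) ^ 2 := by
      have : (ζ : ℝ) ≤ (ζ : ℝ) ^ 2 := by nlinarith
      gcongr
    rw [hKr]
    linarith
  have h2K' : 2 * K ≤ r := by exact_mod_cast h2K
  set m : ℕ := (r - 1) / K with hmdef
  have hmK : K * m + 1 ≤ r := by
    have := Nat.mul_div_le (r - 1) K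
    rw [← hmdef] at this
    omega
  have hmr : r ≤ K * m + K := by
    have := Nat.lt_mul_div_succ (r - 1) hK1
    rw [← hmdef] at this
    have h3 : K * (m + 1) = K * m + K := by ring
    omega
  have hm1 : 1 ≤ m := by
    rw [hmdef]
    exact (Nat.one_le_div_iff hK1).mpr (by omega)
  have hmr' : (r : ℝ) ≤ 2 * K * m := by
    have h1 : (r : ℝ) ≤ K * m + K := by exact_mod_cast hmr
    have : (r : ℝ) ≤ r / 2 + K * m := by linarith
    linarith
  have hScard : (Finset.univ.image (Fin.castLE h)).card = r := by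
    rw [Finset.card_image_of_injective _ (Fin.castLE_injective h), Finset.card_univ,
      Fintype.card_fin]
  have hmain := prob_injects_le (ζ := ζ) (b := b) (K := K) (m := m) hζ hb hK1 hm1 hα
    (Finset.univ.image (Fin.castLE h)) (coordSubspace h) (mem_coordSubspace h)
    (by rw [hScard]; exact hmK)
  rw [hScard] at hmain
  refine le_trans hmain ?_
  have hfirst : ((ζ : ℝ) - 1) / ((K : ℝ) * α) ≤ ε / 2 := by
    rw [div_le_iff₀ (by positivity), hKr]
    rw [div_le_iff₀ (by positivity)] at hκ2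
    nlinarith
  have hm0 : (0 : ℝ) < (m : ℝ) := by exact_mod_cast hm1
  have hb0 : (0 : ℝ) < (b : ℝ) := by exact_mod_cast hb
  -- base bound
  have hbase : D⁻¹ ≤ (m : ℝ) / ((b : ℝ) + m) := by
    rw [inv_eq_one_div, div_le_div_iff₀ hD0 (by positivity)]
    have h1 : (ζ : ℝ) * b ≤ ζ * (2 * C * κ * m) := by
      calc (ζ : ℝ) * b ≤ C * r := hζb
        _ ≤ C * (2 * K * m) := by gcongr
        _ = ζ * (2 * C * κ * m) := by rw [hKr]; ring
    have h2 : (b : ℝ) ≤ 2 * C * κ * m := le_of_mul_le_mul_left h1 hζ0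
    rw [hD]; nlinarith
  have hρ : (D⁻¹) ^ (K * ζ) ≤ ((m : ℝ) / ((b : ℝ) + m)) ^ (K * ζ) := by
    gcongr
  have hρ2 : (r : ℝ) ^ (-(1 / 2 : ℝ)) ≤ (((m : ℝ) / ((b : ℝ) + m)) ^ (K * ζ)) ^ 2 := by
    refine le_trans ?_ (pow_le_pow_left₀ (by positivity) hρ 2)
    rw [← pow_mul, inv_pow, ← Real.exp_log hD0, ← Real.exp_nat_mul, ← Real.exp_neg,
      Real.rpow_def_of_pos hr0]
    apply Real.exp_le_exp.mpr
    push_cast
    rw [hKr]
    have h1 : (κ : ℝ) * (ζ : ℝ) ^ 2 * (4 * Real.log D) ≤ Real.log r := by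
      have := mul_le_mul_of_nonneg_right hkz (by positivity : (0 : ℝ) ≤ 4 * Real.log D)
      rw [ha] at this
      field_simp at this
      linarith
    have e : (κ : ℝ) * ζ * ζ * 2 * Real.log D = (κ * (ζ : ℝ) ^ 2 * (4 * Real.log D)) / 2 := by
      ring
    rw [e]
    linarith
  have hsecond : ((ζ : ℝ) * K + 1) ^ 2
        / ((r : ℝ) * (((m : ℝ) / ((b : ℝ) + m)) ^ (K * ζ)) ^ 2) ≤ ε / 2 := by
    have hden : √(r : ℝ) ≤ (r : ℝ) * (((m : ℝ) / ((b : ℝ) + m)) ^ (K * ζ)) ^ 2 := by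
      have h1 : √(r : ℝ) = (r : ℝ) * (r : ℝ) ^ (-(1 / 2 : ℝ)) := by
        rw [Real.sqrt_eq_rpow]
        nth_rewrite 2 [← Real.rpow_one (r : ℝ)]
        rw [← Real.rpow_add hr0]
        norm_num
      rw [h1]
      gcongr
    have hsq : 0 < √(r : ℝ) := Real.sqrt_pos.mpr hr0
    rw [div_le_iff₀ (lt_of_lt_of_le hsq hden)]
    have hnum : ((ζ : ℝ) * K + 1) ^ 2 ≤ (a * Real.log r + 1) ^ 2 := by
      have : (ζ : ℝ) * K = κ * (ζ : ℝ) ^ 2 := by rw [hKr]; ring
      rw [this]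
      gcongr
    calc ((ζ : ℝ) * K + 1) ^ 2 ≤ (a * Real.log r + 1) ^ 2 := hnum
      _ ≤ ε / 2 * √(r : ℝ) := hg1
      _ ≤ _ := by gcongr
  linarith

end Pool.Agent.H451_SparseStack
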