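import Pool.Agent.H451_SparseStack.Chebyshev

set_option autoImplicit false

/-!
# The averaging over the signs
-/

namespace Pool.Agent.H451_SparseStack

open Finset Matrix

/-- The sign of a Boolean value. -/
def sg (t : Bool) : ℝ := if t then 1 else -1

theorem sg_mul_self (t : Bool) : sg t * sg t = 1 := by cases t <;> simp [sg]

theorem sg_not (t : Bool) : sg (!t) = - sg t := by cases t <;> simp [sg]

/-- Flip of one sign. -/
def flipAt {n ζ : ℕ} (v : Fin n) (j : Fin ζ) (ρ : Fin n → Fin ζ → Bool) :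
    Fin n → Fin ζ → Bool :=
  fun v' j' => if v' = v ∧ j' = j then !(ρ v' j') else ρ v' j'

theorem flipAt_involutive {n ζ : ℕ} (v : Fin n) (j : Fin ζ) :
    Function.Involutive (flipAt v j) := by
  intro ρ
  funext v' j'
  by_cases h : v' = v ∧ j' = j
  · simp [flipAt, h]
  · simp [flipAt, h]

theorem flipAt_self {n ζ : ℕ} (v : Fin n) (j : Fin ζ) (ρ : Fin n → Fin ζ → Bool) :
    flipAt v j ρ v j = !(ρ v j) := by simp [flipAt]

theorem flipAt_of_ne {n ζ : ℕ} (v v' : Fin n) (j j' : Fin ζ) (ρ : Fin n → Fin ζ → Bool)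
    (h : v' ≠ v) : flipAt v j ρ v' j' = ρ v' j' := by simp [flipAt, h]

theorem flipAt_of_ne' {n ζ : ℕ} (v v' : Fin n) (j j' : Fin ζ) (ρ : Fin n → Fin ζ → Bool)
    (h : j' ≠ j) : flipAt v j ρ v' j' = ρ v' j' := by simp [flipAt, h]

theorem sum_eq_zero_of_flip {n ζ : ℕ} (v : Fin n) (j : Fin ζ)
    (F : (Fin n → Fin ζ → Bool) → ℝ) (h : ∀ ρ, F (flipAt v j ρ) = - F ρ) :
    ∑ ρ, F ρ = 0 := by
  have h1 : ∑ ρ, F (flipAt v j ρ) = ∑ ρ, F ρ :=
    Equiv.sum_comp (Function.Involutive.toPerm _ (flipAt_involutive v j)) F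
  rw [Finset.sum_congr rfl (fun ρ _ => h ρ), Finset.sum_neg_distrib] at h1
  linarith

theorem exists_mates {n ζ b K : ℕ} (S : Finset (Fin n)) (s : Fin n → Fin ζ → Fin b)
    (u : Fin n) (j : Fin ζ) (h : K ≤ (mates S s u j).card) :
    ∃ w : Fin K → Fin n, Function.Injective w ∧ ∀ i, w i ∈ S ∧ w i ≠ u ∧ s (w i) j = s u j := by
  let e := Finset.orderEmbOfCardLe (mates S s u j) h
  refine ⟨e, e.injective, fun i => ?_⟩
  have h1 : e i ∈ mates S s u j := Finset.orderEmbOfCardLe_mem (mates S s u j) h i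
  have h2 := Finset.mem_filter.mp h1
  exact ⟨h2.1, h2.2.1, h2.2.2⟩

/-- The test vector. -/
noncomputable def testVec {n ζ K : ℕ} (u : Fin n) (w : Fin ζ → Fin K → Fin n)
    (ρ : Fin n → Fin ζ → Bool) : Fin n → ℝ :=
  fun v => (if v = u then 1 else 0)
    - (1 / (K : ℝ)) * ∑ q : Fin ζ × Fin K,
      (if v = w q.1 q.2 then sg (ρ u q.1) * sg (ρ (w q.1 q.2) q.1) else 0)

/-- One summand of the image of the test vector. -/
noncomputable def imgTerm {n ζ b K : ℕ} (u : Fin n) (w : Fin ζ → Fin K → Fin n)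
    (s : Fin n → Fin ζ → Fin b) (l : Fin ζ) (p : Fin b) (q : Fin ζ × Fin K)
    (ρ : Fin n → Fin ζ → Bool) : ℝ :=
  if q.1 ≠ l ∧ s (w q.1 q.2) l = p then
    sg (ρ u q.1) * sg (ρ (w q.1 q.2) q.1) * sg (ρ (w q.1 q.2) l) else 0

theorem image_testVec {n ζ b K : ℕ} (hK : 1 ≤ K) (u : Fin n) (w : Fin ζ → Fin K → Fin n)
    (s : Fin n → Fin ζ → Fin b) (hw : ∀ j i, s (w j i) j = s u j)
    (ρ : Fin n → Fin ζ → Bool) (l : Fin ζ) (p : Fin b) :
    ((sparseStack ((ρ, s) : Sample n ζ b))ᵀ *ᵥ testVec u w ρ) (l, p)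
      = - (1 / ((K : ℝ) * √(ζ : ℝ))) * ∑ q : Fin ζ × Fin K, imgTerm u w s l p q ρ := by
  classical
  have hK0 : (0 : ℝ) < (K : ℝ) := by exact_mod_cast hK
  set G : Fin n → ℝ := fun v => if s v l = p then sg (ρ v l) / √(ζ : ℝ) else 0 with hG
  have h1 : ((sparseStack ((ρ, s) : Sample n ζ b))ᵀ *ᵥ testVec u w ρ) (l, p)
      = ∑ v, G v * testVec u w ρ v := by
    rfl
  have h2 : ∑ v, G v * testVec u w ρ v
      = G u - (1 / (K : ℝ)) * ∑ q : Fin ζ × Fin K,
        (sg (ρ u q.1) * sg (ρ (w q.1 q.2) q.1)) * G (w q.1 q.2) := by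
    have h3 : ∀ v, G v * testVec u w ρ v
        = (if v = u then G v else 0) - (1 / (K : ℝ)) * ∑ q : Fin ζ × Fin K,
          (if v = w q.1 q.2 then (sg (ρ u q.1) * sg (ρ (w q.1 q.2) q.1)) * G v else 0) := by
      intro v
      rw [testVec, mul_sub]
      congr 1
      · split_ifs <;> simp
      · rw [mul_left_comm]
        congr 1
        rw [Finset.mul_sum]
        refine Finset.sum_congr rfl fun q _ => ?_
        split_ifs <;> ring
    rw [Finset.sum_congr rfl (fun v _ => h3 v), Finset.sum_sub_distrib, ← Finset.mul_sum,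
      Finset.sum_comm]
    congr 1
    · simp
    · congr 1
      refine Finset.sum_congr rfl fun q _ => ?_
      simp
  have h4 : ∀ q : Fin ζ × Fin K, (sg (ρ u q.1) * sg (ρ (w q.1 q.2) q.1)) * G (w q.1 q.2)
      = (if q.1 = l then G u else 0) + (1 / √(ζ : ℝ)) * imgTerm u w s l p q ρ := by
    rintro ⟨j, i⟩
    by_cases hj : j = l
    · subst hj
      simp only [hG, imgTerm, hw j i, ne_eq, not_true_eq_false, false_and, if_false, if_true]
      by_cases hp : s u j = p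
      · simp only [hp, if_true]
        have := sg_mul_self (ρ (w j i) j)
        rw [mul_zero, add_zero]
        calc sg (ρ u j) * sg (ρ (w j i) j) * (sg (ρ (w j i) j) / √(ζ : ℝ))
            = sg (ρ u j) * (sg (ρ (w j i) j) * sg (ρ (w j i) j)) / √(ζ : ℝ) := by ring
          _ = sg (ρ u j) / √(ζ : ℝ) := by rw [this]; ring
      · simp [hp]
    · simp only [hG, imgTerm, ne_eq, hj, not_false_eq_true, true_and, if_false, zero_add]
      by_cases hp : s (w j i) l = p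
      · simp only [hp, if_true]; ring
      · simp [hp]
  have h5 : ∑ q : Fin ζ × Fin K, (if q.1 = l then G u else 0) = (K : ℝ) * G u := by
    rw [Fintype.sum_prod_type, Finset.sum_comm]
    simp
  rw [h1, h2, Finset.sum_congr rfl (fun q _ => h4 q), Finset.sum_add_distrib, h5,
    ← Finset.mul_sum]
  field_simp
  ring

theorem sum_term_mul_term {n ζ b K : ℕ} (u : Fin n) (w : Fin ζ → Fin K → Fin n)
    (hwinj : ∀ j, Function.Injective (w j)) (hwu : ∀ j i, w j i ≠ u)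
    (s : Fin n → Fin ζ → Fin b) (l : Fin ζ) (p : Fin b) (q q' : Fin ζ × Fin K) (hq : q ≠ q') :
    ∑ ρ : Fin n → Fin ζ → Bool, imgTerm u w s l p q ρ * imgTerm u w s l p q' ρ = 0 := by
  classical
  obtain ⟨j, i⟩ := q
  obtain ⟨j', i'⟩ := q'
  by_cases h1 : j ≠ l ∧ s (w j i) l = p
  swap
  · refine Finset.sum_eq_zero fun ρ _ => ?_
    simp only [imgTerm, if_neg h1, zero_mul]
  by_cases h2 : j' ≠ l ∧ s (w j' i') l = p
  swap
  · refine Finset.sum_eq_zero fun ρ _ => ?_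
    simp only [imgTerm, if_neg h2, mul_zero]
  by_cases hjj : j = j'
  · subst hjj
    have hii : w j i' ≠ w j i := by
      intro h
      exact hq (by rw [hwinj j h])
    refine sum_eq_zero_of_flip (w j i) j _ fun ρ => ?_
    simp only [imgTerm, if_pos h1, if_pos h2]
    rw [flipAt_of_ne _ _ _ _ _ (hwu j i).symm, flipAt_self, flipAt_of_ne' _ _ _ _ _ h1.1.symm,
      flipAt_of_ne _ _ _ _ _ hii, flipAt_of_ne _ _ _ _ _ hii, sg_not]
    ring
  · refine sum_eq_zero_of_flip u j _ fun ρ => ?_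
    simp only [imgTerm, if_pos h1, if_pos h2]
    rw [flipAt_self, flipAt_of_ne _ _ _ _ _ (hwu j i), flipAt_of_ne _ _ _ _ _ (hwu j i),
      flipAt_of_ne' _ _ _ _ _ (Ne.symm hjj), flipAt_of_ne _ _ _ _ _ (hwu j' i'),
      flipAt_of_ne _ _ _ _ _ (hwu j' i'), sg_not]
    ring

theorem sum_term_sq {n ζ b K : ℕ} (u : Fin n) (w : Fin ζ → Fin K → Fin n)
    (s : Fin n → Fin ζ → Fin b) :
    ∑ l : Fin ζ, ∑ p : Fin b, ∑ q : Fin ζ × Fin K, ∑ ρ : Fin n → Fin ζ → Bool,
      imgTerm u w s l p q ρ * imgTerm u w s l p q ρ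
      = (ζ : ℝ) * ((ζ : ℝ) - 1) * K * (Fintype.card (Fin n → Fin ζ → Bool) : ℝ) := by
  classical
  have h1 : ∀ l p q, ∑ ρ : Fin n → Fin ζ → Bool, imgTerm u w s l p q ρ * imgTerm u w s l p q ρ
      = if q.1 ≠ l ∧ s (w q.1 q.2) l = p then (Fintype.card (Fin n → Fin ζ → Bool) : ℝ)
        else 0 := by
    intro l p q
    by_cases h : q.1 ≠ l ∧ s (w q.1 q.2) l = p
    · rw [if_pos h]
      have h2 : ∀ ρ : Fin n → Fin ζ → Bool, imgTerm u w s l p q ρ * imgTerm u w s l p q ρ = 1 := by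
        intro ρ
        simp only [imgTerm, if_pos h]
        have e1 := sg_mul_self (ρ u q.1)
        have e2 := sg_mul_self (ρ (w q.1 q.2) q.1)
        have e3 := sg_mul_self (ρ (w q.1 q.2) l)
        calc _ = (sg (ρ u q.1) * sg (ρ u q.1)) * (sg (ρ (w q.1 q.2) q.1)
              * sg (ρ (w q.1 q.2) q.1)) * (sg (ρ (w q.1 q.2) l) * sg (ρ (w q.1 q.2) l)) := by ring
          _ = 1 := by rw [e1, e2, e3]; norm_num
      rw [Finset.sum_congr rfl (fun ρ _ => h2 ρ), Finset.sum_const, Finset.card_univ]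
      simp
    · rw [if_neg h]
      refine Finset.sum_eq_zero fun ρ _ => ?_
      simp only [imgTerm, if_neg h, mul_zero]
  have h2 : ∀ l : Fin ζ, ∑ p : Fin b, ∑ q : Fin ζ × Fin K, ∑ ρ : Fin n → Fin ζ → Bool,
      imgTerm u w s l p q ρ * imgTerm u w s l p q ρ
      = ((ζ : ℝ) - 1) * K * (Fintype.card (Fin n → Fin ζ → Bool) : ℝ) := by
    intro l
    rw [Finset.sum_comm]
    have h3 : ∀ q : Fin ζ × Fin K, ∑ p : Fin b, ∑ ρ : Fin n → Fin ζ → Bool,
        imgTerm u w s l p q ρ * imgTerm u w s l p q ρ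
        = if q.1 ≠ l then (Fintype.card (Fin n → Fin ζ → Bool) : ℝ) else 0 := by
      intro q
      rw [Finset.sum_congr rfl (fun p _ => h1 l p q)]
      by_cases hq : q.1 ≠ l
      · simp [hq]
      · simp [hq]
    rw [Finset.sum_congr rfl (fun q _ => h3 q), Fintype.sum_prod_type]
    have h4 : ∀ j : Fin ζ, ∑ _i : Fin K, (if j ≠ l then
        (Fintype.card (Fin n → Fin ζ → Bool) : ℝ) else 0)
        = if j ≠ l then (K : ℝ) * (Fintype.card (Fin n → Fin ζ → Bool) : ℝ) else 0 := by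
      intro j
      split_ifs <;> simp
    rw [Finset.sum_congr rfl (fun j _ => h4 j), ← Finset.sum_filter, Finset.sum_const]
    have h5 : (Finset.univ.filter fun j : Fin ζ => j ≠ l).card = ζ - 1 := by
      rw [Finset.filter_ne', Finset.card_erase_of_mem (Finset.mem_univ _), Finset.card_univ,
        Fintype.card_fin]
    rw [h5, nsmul_eq_mul, Nat.cast_sub (by have := l.2; omega)]
    push_cast
    ring
  rw [Finset.sum_congr rfl (fun l _ => h2 l), Finset.sum_const, Finset.card_univ,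
    Fintype.card_fin, nsmul_eq_mul]
  ring

theorem sum_sq_eq {A Q : Type} [Fintype A] [Fintype Q] (F : Q → A → ℝ)
    (h : ∀ q q', q ≠ q' → ∑ a, F q a * F q' a = 0) :
    ∑ a, (∑ q, F q a) ^ 2 = ∑ q, ∑ a, F q a * F q a := by
  classical
  have h1 : ∀ a, (∑ q, F q a) ^ 2 = ∑ q, ∑ q', F q a * F q' a := by
    intro a; rw [sq, Finset.sum_mul_sum]
  rw [Finset.sum_congr rfl (fun a _ => h1 a), Finset.sum_comm]
  refine Finset.sum_congr rfl fun q _ => ?_
  rw [Finset.sum_comm, Finset.sum_eq_single q]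
  · intro q' _ hq'
    exact h q q' hq'.symm
  · intro hq; exact absurd (Finset.mem_univ q) hq

theorem sum_normSq_image {n ζ b K : ℕ} (hζ : 1 ≤ ζ) (hK : 1 ≤ K) (u : Fin n)
    (w : Fin ζ → Fin K → Fin n)
    (hwinj : ∀ j, Function.Injective (w j)) (hwu : ∀ j i, w j i ≠ u)
    (s : Fin n → Fin ζ → Fin b) (hw : ∀ j i, s (w j i) j = s u j) :
    ∑ ρ : Fin n → Fin ζ → Bool,
      normSq ((sparseStack ((ρ, s) : Sample n ζ b))ᵀ *ᵥ testVec u w ρ)
      = ((ζ : ℝ) - 1) / K * (Fintype.card (Fin n → Fin ζ → Bool) : ℝ) := by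
  classical
  have hK0 : (0 : ℝ) < (K : ℝ) := by exact_mod_cast hK
  have hζ0 : (0 : ℝ) < (ζ : ℝ) := by exact_mod_cast hζ
  have hsq : √(ζ : ℝ) ^ 2 = ζ := Real.sq_sqrt hζ0.le
  have h1 : ∀ ρ : Fin n → Fin ζ → Bool,
      normSq ((sparseStack ((ρ, s) : Sample n ζ b))ᵀ *ᵥ testVec u w ρ)
      = (1 / ((K : ℝ) ^ 2 * ζ)) * ∑ l : Fin ζ, ∑ p : Fin b,
        (∑ q : Fin ζ × Fin K, imgTerm u w s l p q ρ) ^ 2 := by
    intro ρ
    rw [normSq, Fintype.sum_prod_type, Finset.mul_sum]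
    refine Finset.sum_congr rfl fun l _ => ?_
    rw [Finset.mul_sum]
    refine Finset.sum_congr rfl fun p _ => ?_
    rw [image_testVec hK u w s hw ρ l p, mul_pow]
    congr 1
    rw [neg_sq, div_pow, mul_pow, hsq]
    norm_num
  rw [Finset.sum_congr rfl (fun ρ _ => h1 ρ), ← Finset.mul_sum, Finset.sum_comm]
  have h2 : ∑ l : Fin ζ, ∑ ρ : Fin n → Fin ζ → Bool, ∑ p : Fin b,
      (∑ q : Fin ζ × Fin K, imgTerm u w s l p q ρ) ^ 2
      = ∑ l : Fin ζ, ∑ p : Fin b, ∑ q : Fin ζ × Fin K, ∑ ρ : Fin n → Fin ζ → Bool,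
      imgTerm u w s l p q ρ * imgTerm u w s l p q ρ := by
    refine Finset.sum_congr rfl fun l _ => ?_
    rw [Finset.sum_comm]
    refine Finset.sum_congr rfl fun p _ => ?_
    exact sum_sq_eq (fun q ρ => imgTerm u w s l p q ρ)
      (fun q q' hq => sum_term_mul_term u w hwinj hwu s l p q q' hq)
  rw [h2, sum_term_sq]
  field_simp

/-- For positions with a good row, few sign patterns give an injection. -/
theorem card_signs_le {n ζ b K : ℕ} (hζ : 1 ≤ ζ) (hK : 1 ≤ K) {α : ℝ} (hα : 0 < α)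
    (S : Finset (Fin n)) (V : Submodule ℝ (Fin n → ℝ))
    (hV : ∀ x : Fin n → ℝ, (∀ i, i ∉ S → x i = 0) → x ∈ V)
    (s : Fin n → Fin ζ → Fin b) (hs : (goodRows S K s).Nonempty)
    [DecidablePred fun ρ : Fin n → Fin ζ → Bool => Injects α V ((ρ, s) : Sample n ζ b)] :
    ((Finset.univ.filter fun ρ : Fin n → Fin ζ → Bool =>
        Injects α V ((ρ, s) : Sample n ζ b)).card : ℝ)
      ≤ ((ζ : ℝ) - 1) / ((K : ℝ) * α) * (Fintype.card (Fin n → Fin ζ → Bool) : ℝ) := by
  classical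
  obtain ⟨u, hu⟩ := hs
  rw [goodRows, Finset.mem_filter] at hu
  obtain ⟨huS, hu⟩ := hu
  choose w hwinj hw using fun j => exists_mates S s u j (hu j)
  have hwS : ∀ j i, w j i ∈ S := fun j i => (hw j i).1
  have hwu : ∀ j i, w j i ≠ u := fun j i => (hw j i).2.1
  have hws : ∀ j i, s (w j i) j = s u j := fun j i => (hw j i).2.2
  have hK0 : (0 : ℝ) < (K : ℝ) := by exact_mod_cast hK
  have hsum := sum_normSq_image (b := b) hζ hK u w hwinj hwu s hws
  have hmem : ∀ ρ, testVec u w ρ ∈ V := by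
    intro ρ
    apply hV
    intro v hv
    have hvu : v ≠ u := fun h => hv (h ▸ huS)
    have h1 : ∀ q : Fin ζ × Fin K, (if v = w q.1 q.2 then
        sg (ρ u q.1) * sg (ρ (w q.1 q.2) q.1) else 0) = 0 := by
      intro q
      rw [if_neg]
      intro h
      exact hv (h ▸ hwS q.1 q.2)
    rw [testVec, Finset.sum_congr rfl (fun q _ => h1 q)]
    simp [hvu]
  have hnorm : ∀ ρ, 1 ≤ normSq (testVec u w ρ) := by
    intro ρ
    have h1 : testVec u w ρ u = 1 := by
      have h2 : ∀ q : Fin ζ × Fin K, (if u = w q.1 q.2 then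
          sg (ρ u q.1) * sg (ρ (w q.1 q.2) q.1) else 0) = 0 := by
        intro q
        rw [if_neg]
        exact (hwu q.1 q.2).symm
      rw [testVec, Finset.sum_congr rfl (fun q _ => h2 q)]
      simp
    have h3 : (testVec u w ρ u) ^ 2 ≤ normSq (testVec u w ρ) :=
      Finset.single_le_sum (f := fun i => (testVec u w ρ i) ^ 2) (fun i _ => sq_nonneg _)
        (Finset.mem_univ u)
    rw [h1] at h3
    linarith
  have hle : ((Finset.univ.filter fun ρ : Fin n → Fin ζ → Bool =>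
        Injects α V ((ρ, s) : Sample n ζ b)).card : ℝ) * α
      ≤ ∑ ρ : Fin n → Fin ζ → Bool,
        normSq ((sparseStack ((ρ, s) : Sample n ζ b))ᵀ *ᵥ testVec u w ρ) := by
    rw [← nsmul_eq_mul, ← Finset.sum_const]
    refine le_trans (Finset.sum_le_sum (g := fun ρ =>
      normSq ((sparseStack ((ρ, s) : Sample n ζ b))ᵀ *ᵥ testVec u w ρ)) ?_)
      (Finset.sum_le_sum_of_subset_of_nonneg (Finset.filter_subset _ _) ?_)
    · intro ρ hρ
      rw [Finset.mem_filter] at hρ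
      have h1 := hρ.2 (testVec u w ρ) (hmem ρ)
      have h2 := mul_le_mul_of_nonneg_left (hnorm ρ) hα.le
      linarith
    · intro ρ _ _
      exact Finset.sum_nonneg fun i _ => sq_nonneg _
  rw [hsum] at hle
  rw [← le_div_iff₀ hα] at hle
  refine le_trans hle (le_of_eq ?_)
  field_simp

end Pool.Agent.H451_SparseStack
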